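import Mathlib
import Pool.Agent.NH6.PG3
import Pool.Agent.Y715.Nr

/-!
# A vanishing criterion for Bloch–Kato Selmer groups, for all primes and number fields

Let `K` be a number field, `p` a prime number and `T` a free `ℤ_p`-module of rank `N` with a
continuous action of the absolute Galois group of `K`, unramified outside `p` and a set `S` of prime
numbers, and unipotent modulo `p`: a basis of `T` can be divided into `n` levels such that the group
acts trivially on the successive quotients of the filtration of `T/pT` which they define.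

Let `D_1, ..., D_m` be subgroups, for instance the decomposition or inertia groups at places above
`p`, and let `T_1⁺, ..., T_m⁺` be submodules such that `T_k⁺` is stable under `D_k`; we assume that
`T_k⁺` is spanned by the vectors of the basis outside a set `B_k`, and that the sets `B_k` are
disjoint. Let `B_0` be the set of the other vectors of the basis.

Let `χ` be a character of order a power of `p`, with values in a normed field `E` that contains
`ℚ_p`, unramified outside `p`, such that each decomposition group above `S` contains elements `φ` for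
which the value of the Euler function at the order of `χ(φ)` is greater than `n`.

Theorem: assume that `K` has no cyclic extension of degree `p` that is unramified outside `p` and
fixed by `D_k`, for `k = 1, ..., m` with `B_k` not empty, and, if `B_0` is not empty, that the same
holds with `D_k` replaced by an element `γ` as above and a set `C` of complex conjugations such that
the vectors `v` of `T` with `c v = -v` for an element `c` of `C` have coordinates in `B_0` divisible
by `p`. Then a class in `H¹(K, T ⊗ E(χ))` is trivial if it is trivial on the inertia groups at the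
places prime to `p` and if, for all `k`, its image in the cohomology of `V/V_k⁺` is trivial on `D_k`.
-/

set_option autoImplicit false

namespace Pool.Agent.Results.MP_787500_nt.CriterionAllPrimes

open scoped Matrix

/-- The absolute Galois group of `K`. -/
abbrev Gal (K : Type) [Field K] : Type := AlgebraicClosure K ≃ₐ[K] AlgebraicClosure K

/-- The decomposition group of the place given by the embedding `ι` of the algebraic closure. -/
def Dec {K : Type} [Field K] {l : ℕ} [Fact l.Prime] (ι : AlgebraicClosure K →+* PadicAlgCl l) :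
    Set (Gal K) :=
  {σ | ∃ τ : PadicAlgCl l ≃ₐ[ℚ_[l]] PadicAlgCl l, ∀ x, τ (ι x) = ι (σ x)}

/-- Its inertia group: the automorphisms which are trivial on the residue field. -/
def Inr {K : Type} [Field K] {l : ℕ} [Fact l.Prime] (ι : AlgebraicClosure K →+* PadicAlgCl l) :
    Set (Gal K) :=
  {σ | ∃ τ : PadicAlgCl l ≃ₐ[ℚ_[l]] PadicAlgCl l, (∀ x, τ (ι x) = ι (σ x)) ∧
    ∀ z : PadicAlgCl l, ‖z‖ ≤ 1 → ‖τ z - z‖ < 1}

/-- `K` has no cyclic extension of degree `p` that is unramified at the places prime to `p` and whose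
absolute Galois group contains `D`. -/
def NoExtension (p : ℕ) [Fact p.Prime] {K : Type} [Field K] (D : Set (Gal K)) : Prop :=
  ∀ f : Gal K → ZMod p, Continuous f → (∀ σ τ, f (σ * τ) = f σ + f τ) → (∀ σ ∈ D, f σ = 0) →
    (∀ (l : ℕ) [Fact l.Prime] (ι : AlgebraicClosure K →+* PadicAlgCl l), l ≠ p →
      ∀ σ ∈ Inr ι, f σ = 0) → ∀ σ, f σ = 0

section

variable {p : ℕ} [Fact p.Prime] {K : Type} [Field K] {N m : ℕ}

/-- `ρ` is a continuous representation on `T = ℤ_p^N` that is unramified outside `p` and `S`. The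
basis is divided into the levels `0, …, n - 1` and `ρ(σ) e_j - e_j` is modulo `p` a combination of
vectors of lower levels. The vectors `e_i` with `B i = some k` form the set `B_k`, and the submodule
`T_k⁺` spanned by the other ones is stable under `D k`. If `c` in `C` is multiplication by `-1` on a
vector, then its coordinates `i` with `B i = none` are divisible by `p`; the elements of `C` are
involutions. -/
structure IsRep (S : Set ℕ) (n : ℕ) (level : Fin N → ℕ) (B : Fin N → Option (Fin m))
    (D : Fin m → Set (Gal K)) (C : Set (Gal K)) (ρ : Gal K → Matrix (Fin N) (Fin N) ℤ_[p]) :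
    Prop where
  one : ρ 1 = 1
  mul : ∀ σ τ, ρ (σ * τ) = ρ σ * ρ τ
  cont : Continuous ρ
  unr : ∀ (l : ℕ) [Fact l.Prime] (ι : AlgebraicClosure K →+* PadicAlgCl l), l ≠ p → l ∉ S →
    ∀ σ ∈ Inr ι, ρ σ = 1
  lt : ∀ i, level i < n
  flag : ∀ σ i j, ¬ level i < level j →
    (p : ℤ_[p]) ∣ ρ σ i j - (1 : Matrix (Fin N) (Fin N) ℤ_[p]) i j
  stable : ∀ k, ∀ σ ∈ D k, ∀ i j, B i = some k → B j ≠ some k → ρ σ i j = 0
  inv : ∀ c ∈ C, c * c = 1
  real : ∀ c ∈ C, ∀ v : Fin N → ℤ_[p], ρ c *ᵥ v = -v → ∀ i, B i = none → (p : ℤ_[p]) ∣ v i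

variable {E : Type} [NormedField E] [NormedAlgebra ℚ_[p] E]

variable (p) in
/-- `χ` is a continuous character, its values are roots of unity whose orders are powers of `p`, it
is unramified at the places prime to `p` and trivial on `C`. -/
structure IsTwist (C : Set (Gal K)) (χ : Gal K → E) : Prop where
  one : χ 1 = 1
  mul : ∀ σ τ, χ (σ * τ) = χ σ * χ τ
  cont : Continuous χ
  pow : ∀ σ, ∃ k : ℕ, χ σ ^ p ^ k = 1
  unr : ∀ (l : ℕ) [Fact l.Prime] (ι : AlgebraicClosure K →+* PadicAlgCl l), l ≠ p →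
    ∀ σ ∈ Inr ι, χ σ = 1
  real : ∀ c ∈ C, χ c = 1

/-- The action of `σ` on `V = T ⊗ E(χ)`. -/
noncomputable def act (χ : Gal K → E) (ρ : Gal K → Matrix (Fin N) (Fin N) ℤ_[p])
    (σ : Gal K) (v : Fin N → E) : Fin N → E :=
  χ σ • ((ρ σ).map fun x : ℤ_[p] => algebraMap ℚ_[p] E x) *ᵥ v

/-- The continuous cocycles with values in `V`. -/
structure IsCocycle (χ : Gal K → E) (ρ : Gal K → Matrix (Fin N) (Fin N) ℤ_[p])
    (c : Gal K → Fin N → E) : Prop where
  cont : Continuous c
  mul : ∀ σ τ, c (σ * τ) = c σ + act χ ρ σ (c τ)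

/-- The image of the cocycle `c` in the quotient of `V` by the vectors `e_i` with `i ∉ J` is on `D`
the coboundary of a vector. -/
def TrivialOn (χ : Gal K → E) (ρ : Gal K → Matrix (Fin N) (Fin N) ℤ_[p]) (D : Set (Gal K))
    (J : Set (Fin N)) (c : Gal K → Fin N → E) : Prop :=
  ∃ y : Fin N → E, ∀ σ ∈ D, ∀ i ∈ J, c σ i = (act χ ρ σ y - y) i

/-- The class of the cocycle `c` is trivial on the inertia groups at the places prime to `p`, and
its image in `V/V_k⁺` is trivial on `D k`. -/
structure IsSelmer (χ : Gal K → E) (ρ : Gal K → Matrix (Fin N) (Fin N) ℤ_[p])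
    (B : Fin N → Option (Fin m)) (D : Fin m → Set (Gal K)) (c : Gal K → Fin N → E) : Prop where
  away : ∀ (l : ℕ) [Fact l.Prime] (ι : AlgebraicClosure K →+* PadicAlgCl l), l ≠ p →
    TrivialOn χ ρ (Inr ι) Set.univ c
  above : ∀ k, TrivialOn χ ρ (D k) {i | B i = some k} c

end

open Pool.Agent.NH6.PG

theorem result (p : ℕ) [Fact p.Prime] (K : Type) [Field K] [NumberField K] (N m n : ℕ) (S : Set ℕ)
    (level : Fin N → ℕ) (B : Fin N → Option (Fin m)) (D : Fin m → Set (Gal K)) (C : Set (Gal K))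
    (γ : Gal K) (hK : ∀ i k, B i = some k → NoExtension p (D k))
    (hK' : ∀ i, B i = none → NoExtension p (insert γ C))
    (ρ : Gal K → Matrix (Fin N) (Fin N) ℤ_[p]) (hρ : IsRep S n level B D C ρ)
    (E : Type) [NormedField E] [NormedAlgebra ℚ_[p] E] (χ : Gal K → E) (hχ : IsTwist p C χ)
    (hγ : ∀ i, B i = none → n < Nat.totient (orderOf (χ γ)))
    (hS : ∀ l ∈ S, ∀ [Fact l.Prime] (ι : AlgebraicClosure K →+* PadicAlgCl l), l ≠ p →
      ∃ φ ∈ Dec ι, n < Nat.totient (orderOf (χ φ)))
    (c : Gal K → Fin N → E) (hc : IsCocycle χ ρ c) (hsel : IsSelmer χ ρ B D c) :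
    ∃ y : Fin N → E, ∀ σ, c σ = act χ ρ σ y - y := by
  classical
  let ρ' : Gal K →* Matrix (Fin N) (Fin N) ℤ_[p] := ⟨⟨ρ, hρ.one⟩, hρ.mul⟩
  let χ' : Gal K →* Eˣ := (⟨⟨χ, hχ.one⟩, hχ.mul⟩ : Gal K →* E).toHomUnits
  have hχ' : ∀ σ, (χ' σ : E) = χ σ := fun σ => MonoidHom.coe_toHomUnits _ σ
  have hact : ∀ (a : Gal K) (v : Fin N → E), act χ ρ a v = (χ' a : E) • mv (ρ' a) v := by
    intro a v
    rw [hχ']
    rfl
  have hord : ∀ σ, orderOf (χ' σ) = orderOf (χ σ) := by
    intro σ
    rw [← orderOf_units, hχ']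
  have hrig : ∀ {D' : Set (Gal K)}, NoExtension p D' → RigP p D' {I | ∃ (l : ℕ) (_ : Fact l.Prime)
      (ι : AlgebraicClosure K →+* PadicAlgCl l), l ≠ p ∧ I = Inr ι} := by
    intro D' h f hf hm hD hI
    exact h f hf.continuous hm hD (fun l _ ι hl σ hσ => hI (Inr ι) ⟨l, inferInstance, ι, hl, rfl⟩ σ hσ)
  obtain ⟨y, hy⟩ := u_main ρ' hρ.cont hρ.lt hρ.flag B D C γ
    {I | ∃ (l : ℕ) (_ : Fact l.Prime) (ι : AlgebraicClosure K →+* PadicAlgCl l), l ≠ p ∧ I = Inr ι}
    hρ.stable χ'
    (by
      simp only [hχ']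
      exact hχ.cont)
    (fun σ => by
      obtain ⟨k, hk⟩ := hχ.pow σ
      refine ⟨k, Units.ext ?_⟩
      rw [Units.val_pow_eq_pow_val, hχ', hk, Units.val_one])
    (fun σ hσ => ⟨hρ.inv σ hσ, Units.ext (by rw [hχ', hχ.real σ hσ, Units.val_one]), hρ.real σ hσ⟩)
    (fun i k hi => hrig (hK i k hi))
    (fun i hi => ⟨hrig (hK' i hi), by rw [hord]; exact hγ i hi⟩)
    (by
      rintro _ ⟨l, hl, ι, hlp, rfl⟩
      refine ⟨fun σ hσ => Units.ext (by rw [hχ', hχ.unr l ι hlp σ hσ, Units.val_one]), ?_⟩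
      by_cases hlS : l ∈ S
      · right
        obtain ⟨φ, hφ, hφo⟩ := hS l hlS ι hlp
        refine ⟨φ, ?_, by rw [hord]; exact hφo⟩
        obtain ⟨t, ht⟩ := hφ
        rintro σ ⟨τ, hτ, hin⟩
        have ht' : ∀ x, t⁻¹ (ι x) = ι (φ⁻¹ x) := by
          intro x
          have h1 := ht (φ⁻¹ x)
          rw [← AlgEquiv.mul_apply, mul_inv_cancel, AlgEquiv.one_apply] at h1
          rw [← h1, ← AlgEquiv.mul_apply, inv_mul_cancel, AlgEquiv.one_apply]
        refine ⟨t * τ * t⁻¹, fun x => ?_, fun z hz => ?_⟩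
        · rw [AlgEquiv.mul_apply, AlgEquiv.mul_apply, ht', hτ, ht]
          rfl
        · have hnt : ∀ (u : PadicAlgCl l ≃ₐ[ℚ_[l]] PadicAlgCl l) (z : PadicAlgCl l), ‖u z‖ = ‖z‖ :=
            fun u z => Pool.Agent.Y715.Nr.nrm u z
          have e : (t * τ * t⁻¹) z - z = t (τ (t⁻¹ z) - t⁻¹ z) := by
            rw [map_sub, ← AlgEquiv.mul_apply t t⁻¹, mul_inv_cancel, AlgEquiv.one_apply]
            rfl
          rw [e, hnt]
          exact hin _ (by rw [hnt]; exact hz)
      · left
        intro σ hσ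
        exact hρ.unr l ι hlp hlS σ hσ)
    c hc.cont (fun σ τ => by rw [hc.mul, hact])
    (by
      rintro _ ⟨l, hl, ι, hlp, rfl⟩
      obtain ⟨y, hy⟩ := hsel.away l ι hlp
      refine ⟨y, fun σ hσ => ?_⟩
      funext i
      rw [hy σ hσ i (Set.mem_univ i), hact])
    (by
      intro k
      obtain ⟨y, hy⟩ := hsel.above k
      refine ⟨y, fun σ hσ i hi => ?_⟩
      rw [hy σ hσ i hi, hact])
  exact ⟨y, fun σ => by rw [hy σ, hact]⟩

end Pool.Agent.Results.MP_787500_nt.CriterionAllPrimes
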