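import Mathlib
import Pool.Agent.NH6.Gq

/-!
# Bloch–Kato Selmer groups of twists of arbitrary residually pro-2 representations

`q` is a prime number with `q = 7` modulo `16` and `K = ℚ(√-q)`; the number `2` splits in `K`, let
`w'` be one of the two places above `2` and `w` the other one. `F` is a finite extension of `K`
contained in a Galois extension of `K` whose degree is a power of `2`, possibly `F = K`.

Theorem: let `ρ : Gal(ℚ̄/F) → GL_N(ℤ_2)` be a continuous representation such that the image of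
`Gal(ℚ̄/F)` in `GL_N(𝔽_2)` is a `2`-group, and let `S` be a set of odd prime numbers such that
`F/K` and `ρ` are unramified outside `2` and `S`. Let `E` be a normed field that contains `ℚ_2`, and
let `χ : Gal(ℚ̄/K) → E^*` be a character whose values have order a power of `2`, that is unramified
outside `2` and such that the decomposition groups of the places of `K` above the elements of `S`
contain elements `φ` for which the order of `χ(φ)` is greater than `2 N [F : K] = N [F : ℚ]`. Then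
all the classes in `H¹(F, E(χ) ⊗ ρ)` that are trivial at the places above `w'` and on the inertia
groups of the places prime to `2` are trivial. There is no condition at the places above `w`. If `S`
is empty, then there is no condition on the order of `χ`.
-/

set_option autoImplicit false

namespace Pool.Agent.Results.MP_787500_nt.DominatedTwists

open scoped Matrix

/-- An algebraic closure of `ℚ`. -/
abbrev QBar : Type := AlgebraicClosure ℚ

/-- The automorphisms of `ℚ̄`. -/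
abbrev Aut : Type := QBar ≃ₐ[ℚ] QBar

/-- The absolute Galois group of the subfield `F` of `ℚ̄`. -/
def Gal (F : IntermediateField ℚ QBar) : Type := F.fixingSubgroup

noncomputable instance (F : IntermediateField ℚ QBar) : Group (Gal F) :=
  Subgroup.toGroup F.fixingSubgroup

noncomputable instance (F : IntermediateField ℚ QBar) : TopologicalSpace (Gal F) :=
  instTopologicalSpaceSubtype (p := (· ∈ F.fixingSubgroup))

/-- An element of the Galois group of `F` as an automorphism of `ℚ̄`. -/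
def aut {F : IntermediateField ℚ QBar} (σ : Gal F) : Aut := Subtype.val σ

/-- The field `K = ℚ(s)`. It is `ℚ(√-q)` if `s² = -q`. -/
noncomputable def K (s : QBar) : IntermediateField ℚ QBar := IntermediateField.adjoin ℚ {s}

/-- If `F` contains `K` then the Galois group of `F` is contained in the one of `K`. -/
def toK {s : QBar} {F : IntermediateField ℚ QBar} (hF : K s ≤ F) (σ : Gal F) : Gal (K s) :=
  ⟨aut σ, IntermediateField.fixingSubgroup_antitone hF σ.2⟩

/-- The decomposition group of the place given by the embedding `ι` of `ℚ̄`. -/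
def Dec {p : ℕ} [Fact p.Prime] (ι : QBar →ₐ[ℚ] PadicAlgCl p) : Set Aut :=
  {σ | ∃ τ : PadicAlgCl p ≃ₐ[ℚ_[p]] PadicAlgCl p, ∀ x, τ (ι x) = ι (σ x)}

/-- Its inertia group: the automorphisms which are trivial on the residue field. -/
def Inr {p : ℕ} [Fact p.Prime] (ι : QBar →ₐ[ℚ] PadicAlgCl p) : Set Aut :=
  {σ | ∃ τ : PadicAlgCl p ≃ₐ[ℚ_[p]] PadicAlgCl p, (∀ x, τ (ι x) = ι (σ x)) ∧
    ∀ z : PadicAlgCl p, ‖z‖ ≤ 1 → ‖τ z - z‖ < 1}

/-- `F` is contained in a Galois extension `L` of `K` whose degree over `K` is a power of `2`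
(as `[K : ℚ] = 2`, this means that the degree of `L` over `ℚ` is `2 ^ (n + 1)`). -/
def InTwoExtension (s : QBar) (F : IntermediateField ℚ QBar) : Prop :=
  ∃ (L : IntermediateField ℚ QBar) (n : ℕ), F ≤ L ∧ Module.finrank ℚ L = 2 ^ (n + 1) ∧
    ∀ σ : Gal (K s), ∀ x ∈ L, aut σ x ∈ L

/-- `ρ` is a continuous representation of the absolute Galois group of `F` in `GL_N(ℤ_2)` whose
image in `GL_N(𝔽_2)` is a `2`-group; `F/K` and `ρ` are unramified outside `2` and `S`. -/
structure IsRep (s : QBar) {F : IntermediateField ℚ QBar} {N : ℕ} (S : Set ℕ)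
    (ρ : Gal F → Matrix (Fin N) (Fin N) ℤ_[2]) : Prop where
  one : ρ 1 = 1
  mul : ∀ σ τ, ρ (σ * τ) = ρ σ * ρ τ
  cont : Continuous ρ
  two : ∀ σ, ∃ k : ℕ, ∀ i j, (2 : ℤ_[2]) ∣ (ρ σ ^ 2 ^ k) i j - (1 : Matrix (Fin N) (Fin N) ℤ_[2]) i j
  unr : ∀ (p : ℕ) [Fact p.Prime] (ι : QBar →ₐ[ℚ] PadicAlgCl p), p ≠ 2 → p ∉ S →
    ∀ σ : Gal (K s), aut σ ∈ Inr ι → ∃ τ : Gal F, aut τ = aut σ ∧ ρ τ = 1

/-- `χ` is a continuous character, its values are roots of unity whose orders are powers of `2`, and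
it is unramified at the places prime to `2`. -/
structure IsTwist {s : QBar} {E : Type} [NormedField E] (χ : Gal (K s) → E) : Prop where
  one : χ 1 = 1
  mul : ∀ σ τ, χ (σ * τ) = χ σ * χ τ
  cont : Continuous χ
  two : ∀ σ, ∃ k : ℕ, χ σ ^ 2 ^ k = 1
  unr : ∀ (p : ℕ) [Fact p.Prime] (ι : QBar →ₐ[ℚ] PadicAlgCl p), p ≠ 2 →
    ∀ σ, aut σ ∈ Inr ι → χ σ = 1

section

variable {s : QBar} {F : IntermediateField ℚ QBar} {N : ℕ} {E : Type} [NormedField E]
  [NormedAlgebra ℚ_[2] E]

/-- The action of `σ` on `E(χ) ⊗ ρ`. -/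
noncomputable def act (hF : K s ≤ F) (χ : Gal (K s) → E) (ρ : Gal F → Matrix (Fin N) (Fin N) ℤ_[2])
    (σ : Gal F) (v : Fin N → E) : Fin N → E :=
  χ (toK hF σ) • ((ρ σ).map fun x : ℤ_[2] => algebraMap ℚ_[2] E x) *ᵥ v

/-- The continuous cocycles with values in `E(χ) ⊗ ρ`. -/
structure IsCocycle (hF : K s ≤ F) (χ : Gal (K s) → E) (ρ : Gal F → Matrix (Fin N) (Fin N) ℤ_[2])
    (c : Gal F → Fin N → E) : Prop where
  cont : Continuous c
  mul : ∀ σ τ, c (σ * τ) = c σ + act hF χ ρ σ (c τ)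

/-- The restriction of the cocycle `c` to the elements that lie in `D` is a coboundary. -/
def TrivialOn (hF : K s ≤ F) (χ : Gal (K s) → E) (ρ : Gal F → Matrix (Fin N) (Fin N) ℤ_[2])
    (D : Set Aut) (c : Gal F → Fin N → E) : Prop :=
  ∃ y : Fin N → E, ∀ σ : Gal F, aut σ ∈ D → c σ = act hF χ ρ σ y - y

/-- The class of the cocycle `c` is trivial on the inertia groups of the places of `F` prime to `2`
and on the decomposition groups of the places above the place `w'` of `K` given by `ι₀`. -/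
structure IsSelmer (ι₀ : QBar →ₐ[ℚ] PadicAlgCl 2) (hF : K s ≤ F) (χ : Gal (K s) → E)
    (ρ : Gal F → Matrix (Fin N) (Fin N) ℤ_[2]) (c : Gal F → Fin N → E) : Prop where
  odd : ∀ (p : ℕ) [Fact p.Prime] (ι : QBar →ₐ[ℚ] PadicAlgCl p), p ≠ 2 →
    TrivialOn hF χ ρ (Inr ι) c
  two : ∀ ι : QBar →ₐ[ℚ] PadicAlgCl 2, ι s = ι₀ s → TrivialOn hF χ ρ (Dec ι) c

end

open Pool.Agent.NH6

theorem result (q : ℕ) (hq : q.Prime) (hq7 : q % 16 = 7) (s : QBar) (hs : s ^ 2 = -(q : QBar))
    (ι₀ : QBar →ₐ[ℚ] PadicAlgCl 2) (F : IntermediateField ℚ QBar) (hF : K s ≤ F)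
    (hF2 : InTwoExtension s F) (N : ℕ) (S : Set ℕ) (ρ : Gal F → Matrix (Fin N) (Fin N) ℤ_[2])
    (hρ : IsRep s S ρ) (E : Type) [NormedField E] [NormedAlgebra ℚ_[2] E] (χ : Gal (K s) → E)
    (hχ : IsTwist χ)
    (hS : ∀ p ∈ S, ∀ [Fact p.Prime] (ι : QBar →ₐ[ℚ] PadicAlgCl p), p ≠ 2 →
      ∃ φ, aut φ ∈ Dec ι ∧ N * Module.finrank ℚ F < orderOf (χ φ))
    (c : Gal F → Fin N → E) (hc : IsCocycle hF χ ρ c) (hsel : IsSelmer ι₀ hF χ ρ c) :
    TrivialOn hF χ ρ Set.univ c := by
  have : Fact q.Prime := ⟨hq⟩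
  have hq0 : 0 < q := hq.pos
  obtain ⟨L, n, hFL, hn, hL⟩ := hF2
  have hLfd : FiniteDimensional ℚ L := Module.finite_of_finrank_pos (by rw [hn]; positivity)
  have hFfd : FiniteDimensional ℚ F :=
    Module.Finite.of_injective (IntermediateField.inclusion hFL).toLinearMap
      (IntermediateField.inclusion hFL).injective
  have hfin : (HF s F).FiniteIndex := HF_fin (s := s) (F := F) hF
  have hle := HF_le hq0 hs (F := F) hF
  have hL' : ∀ σ ∈ (K s).fixingSubgroup, ∀ x ∈ L, σ x ∈ L := fun σ hσ => hL ⟨σ, hσ⟩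
  -- pull everything back
  let r : HF s F →* Gal F := (res s).subgroupComap F.fixingSubgroup
  have hrc : Continuous r :=
    Continuous.subtype_mk (res_cont.comp continuous_subtype_val) _
  have hK : ∀ g, res s g ∈ (K s).fixingSubgroup := fun g => res_range' (s := s) ▸ ⟨g, rfl⟩
  let t : Pool.Agent.Y715.Gi.GK s →* Gal (K s) := (res s).codRestrict (K s).fixingSubgroup hK
  have htc : Continuous t := Continuous.subtype_mk res_cont _
  let ρ' : Gal F →* Matrix (Fin N) (Fin N) ℤ_[2] := ⟨⟨ρ, hρ.one⟩, hρ.mul⟩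
  let χ' : Gal (K s) →* Eˣ := (⟨⟨χ, hχ.one⟩, hχ.mul⟩ : Gal (K s) →* E).toHomUnits
  have hχ' : ∀ σ, (χ' σ : E) = χ σ := fun σ => MonoidHom.coe_toHomUnits _ σ
  have hact : ∀ (a : HF s F) (v : Fin N → E), act hF χ ρ (r a) v =
      ((χ'.comp t) (a : Pool.Agent.Y715.Gi.GK s) : E) • mv ((ρ'.comp r) a) v := by
    intro a v
    show _ = (χ' (t a) : E) • _
    rw [hχ']
    rfl
  have hsurj : ∀ σ : Gal F, ∃ a : HF s F, r a = σ := by
    intro σ
    have h2 : (aut σ) ∈ (res s).range := by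
      rw [res_range']
      exact (toK hF σ).2
    obtain ⟨a, ha⟩ := h2
    refine ⟨⟨a, ?_⟩, Subtype.ext ha⟩
    show res s a ∈ F.fixingSubgroup
    rw [ha]
    exact σ.2
  obtain ⟨y, hy⟩ := fin_main (n := n + 1) hq7 hs ι₀ (HF_open F)
    (HF_pow (L := L) hF hFL hL' hn) (ρ'.comp r) (hρ.cont.comp hrc)
    (fun σ => hρ.two (r σ)) (χ'.comp t)
    (by
      show Continuous fun σ => (χ' (t σ) : E)
      simp only [hχ']
      exact hχ.cont.comp htc)
    (fun σ => by
      obtain ⟨k, hk⟩ := hχ.two (t σ)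
      refine ⟨k, Units.ext ?_⟩
      show (χ' (t σ) : E) ^ 2 ^ k = 1
      rw [hχ', hk])
    (by
      rintro p _ ι hp2 σ ⟨τ, hin, hτ⟩
      refine Units.ext ?_
      show (χ' (t σ) : E) = 1
      rw [hχ']
      exact hχ.unr p ι hp2 (t σ) ⟨τ, hτ, hin⟩)
    (by
      intro p _ ι hp2
      by_cases hpS : p ∈ S
      · right
        obtain ⟨φ, hφ, hφo⟩ := hS p hpS ι hp2
        obtain ⟨a, ha⟩ : (aut φ) ∈ (res s).range := by
          rw [res_range']
          exact φ.2
        have ha' : t a = φ := Subtype.ext ha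
        refine ⟨a, ?_, ?_⟩
        · obtain ⟨τ, hτ⟩ := hφ
          exact ⟨τ, fun x => by rw [hτ, ← ha]; rfl⟩
        · show _ < orderOf (χ' (t a))
          rw [ha', ← orderOf_units, hχ']
          refine lt_of_le_of_lt ?_ hφo
          calc 2 * (N * (HF s F).index) = N * (2 * (HF s F).index) := by ring
            _ ≤ N * Module.finrank ℚ F := Nat.mul_le_mul_left _ hle
      · left
        rintro g σ ⟨τ, hin, hτ⟩
        obtain ⟨υ, h1, h2⟩ := hρ.unr p (cj ι g) hp2 hpS (t σ) ⟨τ, hτ, hin⟩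
        have h3 : res s σ ∈ F.fixingSubgroup := by
          have : res s σ = aut υ := h1.symm
          rw [this]
          exact υ.2
        refine ⟨h3, ?_⟩
        have h4 : r ⟨σ, h3⟩ = υ := Subtype.ext h1.symm
        show ρ (r ⟨σ, h3⟩) = 1
        rw [h4, h2])
    (fun a => c (r a)) (hc.cont.comp hrc) (fun σ τ => by rw [map_mul, hc.mul, hact])
    (by
      intro p _ ι hp2
      obtain ⟨y, hy⟩ := hsel.odd p ι hp2
      refine ⟨y, ?_⟩
      rintro σ ⟨τ, hin, hτ⟩
      rw [hy (r σ) ⟨τ, hτ, hin⟩, hact])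
    (by
      intro ι hι
      obtain ⟨y, hy⟩ := hsel.two ι hι
      refine ⟨y, ?_⟩
      rintro σ ⟨τ, hτ⟩
      rw [hy (r σ) ⟨τ, hτ⟩, hact])
  refine ⟨y, fun σ _ => ?_⟩
  obtain ⟨a, rfl⟩ := hsurj σ
  rw [hy a, hact]

end Pool.Agent.Results.MP_787500_nt.DominatedTwists
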